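import Mathlib

/-!
# Groups whose finitely generated subgroups are finite or of finite index (helper54)
-/

namespace EGrp54

open Subgroup

/-- Infinite finitely generated torsion groups in which each finitely generated subgroup is finite
or of finite index. -/
structure PG (Γ : Type*) [Group Γ] : Prop where
  fg : Group.FG Γ
  inf : Infinite Γ
  tor : ∀ g : Γ, IsOfFinOrder g
  lf : ∀ H : Subgroup Γ, H.FG → Finite H ∨ H.index ≠ 0

variable {Γ : Type*} [Group Γ]

theorem index_zero_of_le {H K : Subgroup Γ} (h : H ≤ K) (hK : K.index = 0) : H.index = 0 := by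
  have := index_dvd_of_le h
  rw [hK] at this
  exact Nat.eq_zero_of_zero_dvd this

theorem index_ne_of_le {H K : Subgroup Γ} (h : H ≤ K) (hH : H.index ≠ 0) : K.index ≠ 0 :=
  fun h0 => hH (index_zero_of_le h h0)

theorem PG.loc (h : PG Γ) {M : Subgroup Γ} (hM : M.index = 0) {H : Subgroup Γ} (hH : H ≤ M)
    (hfg : H.FG) : Finite H := by
  rcases h.lf H hfg with h1 | h1
  · exact h1
  · exact absurd hM (index_ne_of_le hH h1)

theorem PG.fgsub (h : PG Γ) {K : Subgroup Γ} (hK : K.index ≠ 0) : K.FG := by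
  have := h.fg
  have : K.FiniteIndex := ⟨hK⟩
  exact (Group.fg_iff_subgroup_fg K).1 inferInstance

theorem PG.sup (h : PG Γ) {M N : Subgroup Γ} (hM : M.Normal) (hN : N.Normal) (hM0 : M.index = 0)
    (hN0 : N.index = 0) : (M ⊔ N).index = 0 := by
  by_contra hP
  obtain ⟨S, hS⟩ := h.fgsub hP
  have h1 : ∀ s : Γ, ∃ n : Γ, s ∈ S → n ∈ N ∧ ∃ m ∈ M, s = m * n := by
    intro s
    by_cases hs : s ∈ S
    · have h2 : s ∈ ((M ⊔ N : Subgroup Γ) : Set Γ) := by
        rw [← hS]
        exact subset_closure hs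
      rw [mul_normal M N] at h2
      obtain ⟨m, hm, n, hn, hmn⟩ := Set.mem_mul.1 h2
      exact ⟨n, fun _ => ⟨hn, m, hm, hmn.symm⟩⟩
    · exact ⟨1, fun h => absurd h hs⟩
  choose g hg using h1
  classical
  set F : Subgroup Γ := closure ((S.image g : Finset Γ) : Set Γ) with hF
  have hFN : F ≤ N := by
    rw [hF, closure_le]
    intro x hx
    rw [Finset.mem_coe, Finset.mem_image] at hx
    obtain ⟨s, hs, rfl⟩ := hx
    exact (hg s hs).1
  have hFf : Finite F := h.loc hN0 hFN ⟨_, rfl⟩
  have hle : M ⊔ N ≤ F ⊔ M := by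
    rw [← hS, closure_le]
    intro s hs
    obtain ⟨_, m, hm, e⟩ := hg s hs
    rw [e]
    refine mul_mem (le_sup_right (a := F) hm) (le_sup_left (a := F) ?_)
    exact subset_closure (Finset.mem_coe.2 (Finset.mem_image_of_mem g hs))
  have h3 : M.relIndex (F ⊔ M) ≠ 0 := by
    rw [relIndex_sup_right]
    exact index_ne_zero_of_finite
  have h4 := relIndex_mul_index (le_sup_right : M ≤ F ⊔ M)
  rw [hM0] at h4
  have h5 : (F ⊔ M).index = 0 := (mul_eq_zero.1 h4).resolve_left h3
  exact hP (index_zero_of_le hle h5)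

/-- The join of the normal subgroups of infinite index. -/
def RR (Γ : Type*) [Group Γ] : Subgroup Γ := sSup {N : Subgroup Γ | N.Normal ∧ N.index = 0}

theorem PG.dir (h : PG Γ) : DirectedOn (· ≤ ·) {N : Subgroup Γ | N.Normal ∧ N.index = 0} := by
  rintro M ⟨hM, hM0⟩ N ⟨hN, hN0⟩
  exact ⟨M ⊔ N, ⟨Subgroup.sup_normal M N, h.sup hM hN hM0 hN0⟩, le_sup_left, le_sup_right⟩

theorem PG.ne (h : PG Γ) : {N : Subgroup Γ | N.Normal ∧ N.index = 0}.Nonempty := by
  have := h.inf
  exact ⟨⊥, inferInstance, by rw [index_bot, Nat.card_eq_zero_of_infinite]⟩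

theorem PG.mem_RR (h : PG Γ) {x : Γ} : x ∈ RR Γ ↔ ∃ N : Subgroup Γ, (N.Normal ∧ N.index = 0) ∧
    x ∈ N := by
  rw [RR, mem_sSup_of_directedOn h.ne h.dir]
  exact Iff.rfl

theorem le_RR {N : Subgroup Γ} (hN : N.Normal) (h0 : N.index = 0) : N ≤ RR Γ :=
  le_sSup ⟨hN, h0⟩

theorem PG.fin (h : PG Γ) (S : Finset Γ) (hS : ∀ s ∈ S, s ∈ RR Γ) :
    ∃ N : Subgroup Γ, (N.Normal ∧ N.index = 0) ∧ ∀ s ∈ S, s ∈ N := by
  classical
  induction S using Finset.induction_on with
  | empty =>
    obtain ⟨N, hN⟩ := h.ne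
    exact ⟨N, hN, by simp⟩
  | insert a S _ ih =>
    obtain ⟨N, ⟨hN, hN0⟩, hNS⟩ := ih fun s hs => hS s (Finset.mem_insert_of_mem hs)
    obtain ⟨M, ⟨hM, hM0⟩, haM⟩ := h.mem_RR.1 (hS a (Finset.mem_insert_self a S))
    refine ⟨M ⊔ N, ⟨Subgroup.sup_normal M N, h.sup hM hN hM0 hN0⟩, ?_⟩
    intro s hs
    rcases Finset.mem_insert.1 hs with rfl | hs
    · exact le_sup_left (a := M) haM
    · exact le_sup_right (a := M) (hNS s hs)

theorem PG.RR_index (h : PG Γ) : (RR Γ).index = 0 := by
  by_contra h0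
  obtain ⟨S, hS⟩ := h.fgsub h0
  obtain ⟨N, ⟨_, hN0⟩, hNS⟩ := h.fin S fun s hs => by
    rw [← hS]
    exact subset_closure hs
  have hle : RR Γ ≤ N := by
    rw [← hS, closure_le]
    exact hNS
  exact h0 (index_zero_of_le hle hN0)

theorem PG.RR_char (h : PG Γ) : (RR Γ).Characteristic := by
  rw [characteristic_iff_map_le]
  intro φ
  rw [map_le_iff_le_comap]
  intro x hx
  obtain ⟨N, ⟨hN, hN0⟩, hxN⟩ := h.mem_RR.1 hx
  refine h.mem_RR.2 ⟨N.map φ.toMonoidHom, ⟨hN.map _ φ.surjective, ?_⟩, mem_map_of_mem _ hxN⟩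
  rw [← hN0]
  exact index_map_of_bijective φ.bijective N

theorem PG.RR_normal (h : PG Γ) : (RR Γ).Normal := by
  have := h.RR_char
  infer_instance

theorem PG.sub (h : PG Γ) {K : Subgroup Γ} (hK : K.index ≠ 0) : PG K where
  fg := (Group.fg_iff_subgroup_fg K).2 (h.fgsub hK)
  inf := by
    by_contra hfin
    rw [not_infinite_iff_finite] at hfin
    have h1 := K.card_mul_index
    have := h.inf
    rw [Nat.card_eq_zero_of_infinite (α := Γ)] at h1
    rcases mul_eq_zero.1 h1 with h2 | h2
    · exact absurd h2 Nat.card_pos.ne'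
    · exact hK h2
  tor := fun g => by
    have h1 := h.tor (g : Γ)
    rw [isOfFinOrder_iff_pow_eq_one] at h1 ⊢
    obtain ⟨n, hn, e⟩ := h1
    exact ⟨n, hn, Subtype.ext (by simpa using e)⟩
  lf := by
    classical
    intro H hH
    have hH' : (H.map K.subtype).FG := by
      obtain ⟨S, hS⟩ := hH
      exact ⟨S.image K.subtype, by rw [Finset.coe_image, ← MonoidHom.map_closure, hS]⟩
    rcases h.lf (H.map K.subtype) hH' with h1 | h1
    · left
      exact Finite.of_equiv _ (H.equivMapOfInjective K.subtype K.subtype_injective).symm.toEquiv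
    · right
      intro h0
      apply h1
      rw [index_map_subtype, h0, zero_mul]

theorem PG.quot (h : PG Γ) (R : Subgroup Γ) [hN : R.Normal] (hR : R.index = 0) : PG (Γ ⧸ R) where
  fg := by
    have := h.fg
    infer_instance
  inf := by
    have h1 : Nat.card (Γ ⧸ R) = 0 := hR
    rcases Nat.card_eq_zero.1 h1 with h2 | h2
    · exact absurd (h2.false (1 : Γ ⧸ R)) not_false
    · exact h2
  tor := fun g => by
    obtain ⟨x, rfl⟩ := QuotientGroup.mk'_surjective R g
    exact (QuotientGroup.mk' R).isOfFinOrder (h.tor x)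
  lf := by
    classical
    rintro H ⟨S, hS⟩
    let T : Finset Γ := S.image Quotient.out
    have hmap : (closure (T : Set Γ)).map (QuotientGroup.mk' R) = H := by
      rw [MonoidHom.map_closure, ← hS]
      congr 1
      ext x
      constructor
      · rintro ⟨y, hy, rfl⟩
        rw [Finset.mem_coe, Finset.mem_image] at hy
        obtain ⟨s, hs, rfl⟩ := hy
        have : (QuotientGroup.mk' R) (Quotient.out s) = s := Quotient.out_eq s
        rw [this]
        exact hs
      · intro hx
        exact ⟨Quotient.out x, Finset.mem_coe.2 (Finset.mem_image_of_mem _ hx), Quotient.out_eq x⟩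
    rcases h.lf (closure (T : Set Γ)) ⟨T, rfl⟩ with h1 | h1
    · left
      rw [← hmap]
      exact Finite.of_surjective _
        ((QuotientGroup.mk' R).subgroupMap_surjective (closure (T : Set Γ)))
    · right
      intro h0
      apply h1
      have := index_map_dvd (closure (T : Set Γ)) (QuotientGroup.mk'_surjective R)
      rw [hmap, h0] at this
      exact Nat.eq_zero_of_zero_dvd this

theorem PG.ji [(RR Γ).Normal] (N : Subgroup (Γ ⧸ RR Γ)) (hN : N.Normal)
    (h0 : N.index = 0) : N = ⊥ := by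
  have h1 : N.comap (QuotientGroup.mk' (RR Γ)) ≤ RR Γ := by
    apply le_RR (hN.comap _)
    rw [index_comap_of_surjective _ (QuotientGroup.mk'_surjective _)]
    exact h0
  rw [eq_bot_iff]
  intro x hx
  obtain ⟨y, rfl⟩ := QuotientGroup.mk'_surjective (RR Γ) x
  have h2 : y ∈ RR Γ := h1 hx
  rw [mem_bot]
  exact (QuotientGroup.eq_one_iff y).2 h2

theorem PG.comm (h : PG Γ) {Z : Subgroup Γ} (hZ : Z.index ≠ 0)
    (hc : ∀ a ∈ Z, ∀ b ∈ Z, a * b = b * a) : False := by
  have hK := h.sub hZ
  let _ : CommGroup Z := { (inferInstance : Group Z) with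
    mul_comm := fun a b => Subtype.ext (hc a a.2 b b.2) }
  have := hK.fg
  have hfin : Finite Z := CommGroup.finite_of_fg_isMulTorsion _ fun g => hK.tor g
  have := hK.inf
  exact not_finite Z

theorem PG.hji (h : PG Γ) (hji : ∀ N : Subgroup Γ, N.Normal → N.index = 0 → N = ⊥)
    (K : Subgroup Γ) (hK : K.index ≠ 0) (M : Subgroup Γ) (_ : M ≤ K)
    (hn : ∀ k ∈ K, ∀ m ∈ M, k * m * k⁻¹ ∈ M) (hM : M ≠ ⊥) : M.index ≠ 0 := by
  intro hM0
  have hKf : K.FiniteIndex := ⟨hK⟩
  have hK0 : K.normalCore.index ≠ 0 := (inferInstance : K.normalCore.FiniteIndex).index_ne_zero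
  have hle := K.normalCore_le
  by_cases hcase : M ⊓ K.normalCore = ⊥
  · have hC : M ≤ centralizer (K.normalCore : Set Γ) := by
      intro m hm
      rw [mem_centralizer_iff]
      intro k hk
      have h1 : k * m * k⁻¹ * m⁻¹ ∈ M ⊓ K.normalCore := by
        refine ⟨M.mul_mem (hn k (hle hk) m hm) (M.inv_mem hm), ?_⟩
        have : k * m * k⁻¹ * m⁻¹ = k * (m * k⁻¹ * m⁻¹) := by group
        rw [this]
        exact mul_mem hk ((inferInstance : K.normalCore.Normal).conj_mem _
          (K.normalCore.inv_mem hk) m)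
      rw [hcase, mem_bot] at h1
      have h2 : k * m * k⁻¹ = m := mul_inv_eq_one.1 h1
      exact (mul_inv_eq_iff_eq_mul.1 h2)
    have hCn : (centralizer (K.normalCore : Set Γ)).Normal := inferInstance
    have hC0 : (centralizer (K.normalCore : Set Γ)).index ≠ 0 := by
      intro h0
      have := hji _ hCn h0
      rw [this] at hC
      exact hM (le_bot_iff.1 hC)
    refine h.comm (Z := centralizer (K.normalCore : Set Γ) ⊓ K.normalCore)
      (index_inf_ne_zero hC0 hK0) ?_
    rintro a ⟨ha, _⟩ b ⟨_, hb⟩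
    exact ((mem_centralizer_iff.1 ha) b hb).symm
  · have hP := h.sub hK0
    have hchar := hP.RR_char
    have hnor : ((RR K.normalCore).map K.normalCore.subtype).Normal := inferInstance
    have h0 : ((RR K.normalCore).map K.normalCore.subtype).index = 0 := by
      rw [index_map_subtype, hP.RR_index, zero_mul]
    have h1 := hji _ hnor h0
    apply hcase
    have hM'n : ((M ⊓ K.normalCore).subgroupOf K.normalCore).Normal := by
      refine ⟨fun m hm k => ?_⟩
      rw [mem_subgroupOf] at hm ⊢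
      refine ⟨?_, ?_⟩
      · exact hn _ (hle k.2) _ hm.1
      · exact (k * m * k⁻¹).2
    have hmap : ((M ⊓ K.normalCore).subgroupOf K.normalCore).map K.normalCore.subtype =
        M ⊓ K.normalCore := by
      rw [subgroupOf_map_subtype]
      exact inf_of_le_left inf_le_right
    have hM'0 : ((M ⊓ K.normalCore).subgroupOf K.normalCore).index = 0 := by
      have h2 := index_map_subtype ((M ⊓ K.normalCore).subgroupOf K.normalCore)
      rw [hmap, index_zero_of_le inf_le_left hM0] at h2
      exact (mul_eq_zero.1 h2.symm).resolve_right hK0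
    have h3 := le_RR hM'n hM'0
    rw [← hmap, eq_bot_iff, ← h1]
    exact map_mono h3

/-- Nontrivial elements have infinitely many conjugates. -/
theorem PG.icc (h : PG Γ) (hji : ∀ N : Subgroup Γ, N.Normal → N.index = 0 → N = ⊥) (x : Γ)
    (hx : x ≠ 1) : (centralizer {x}).index = 0 := by
  by_contra h0
  have hKf : (centralizer {x}).FiniteIndex := ⟨h0⟩
  have hK0 : (centralizer {x}).normalCore.index ≠ 0 :=
    (inferInstance : (centralizer {x}).normalCore.FiniteIndex).index_ne_zero
  have hle := (centralizer {x}).normalCore_le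
  have hCn : (centralizer ((centralizer {x}).normalCore : Set Γ)).Normal := inferInstance
  have hxC : x ∈ centralizer ((centralizer {x}).normalCore : Set Γ) := by
    rw [mem_centralizer_iff]
    intro k hk
    exact (mem_centralizer_singleton_iff.1 (hle hk))
  have hC0 : (centralizer ((centralizer {x}).normalCore : Set Γ)).index ≠ 0 := by
    intro h1
    have h2 := hji _ hCn h1
    rw [h2, mem_bot] at hxC
    exact hx hxC
  refine h.comm (Z := centralizer ((centralizer {x}).normalCore : Set Γ) ⊓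
    (centralizer {x}).normalCore) (index_inf_ne_zero hC0 hK0) ?_
  rintro a ⟨ha, _⟩ b ⟨_, hb⟩
  exact ((mem_centralizer_iff.1 ha) b hb).symm

end EGrp54
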