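import Pool.Agent.Lib.MP_ee37b4_al.Grp54

/-!
# The largest normal subgroup of infinite index is closed in the pro-`p` topology (helper54)
-/

namespace EGrp54

open Subgroup

variable {G : Type*} [Group G] {p : ℕ}

/-- normal of `p`-power index -/
def PP (p : ℕ) (N : Subgroup G) : Prop := N.Normal ∧ ∃ n : ℕ, N.index = p ^ n

theorem pp_iff [hp : Fact p.Prime] (N : Subgroup G) : PP p N ↔
    N.Normal ∧ N.index ≠ 0 ∧ ∀ x : G, ∃ k : ℕ, x ^ (p ^ k) ∈ N := by
  constructor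
  · rintro ⟨hN, n, hn⟩
    refine ⟨hN, by rw [hn]; exact pow_ne_zero _ hp.out.ne_zero, fun x => ⟨n, ?_⟩⟩
    rw [← hn]
    exact N.pow_index_mem x
  · rintro ⟨hN, h0, hx⟩
    refine ⟨hN, ?_⟩
    have : N.FiniteIndex := ⟨h0⟩
    have hP : IsPGroup p (G ⧸ N) := by
      intro g
      obtain ⟨x, rfl⟩ := QuotientGroup.mk'_surjective N g
      obtain ⟨k, hk⟩ := hx x
      refine ⟨k, ?_⟩
      rw [← map_pow]
      exact (QuotientGroup.eq_one_iff _).2 hk
    exact IsPGroup.iff_card.1 hP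

theorem pp_top : PP p (⊤ : Subgroup G) := ⟨inferInstance, 0, by simp⟩

theorem pp_inf [hp : Fact p.Prime] {M N : Subgroup G} (hM : PP p M) (hN : PP p N) :
    PP p (M ⊓ N) := by
  rw [pp_iff] at hM hN ⊢
  obtain ⟨hM, hM0, hMx⟩ := hM
  obtain ⟨hN, hN0, hNx⟩ := hN
  refine ⟨inferInstance, index_inf_ne_zero hM0 hN0, fun x => ?_⟩
  obtain ⟨a, ha⟩ := hMx x
  obtain ⟨b, hb⟩ := hNx x
  refine ⟨a + b, ?_, ?_⟩
  · rw [pow_add, pow_mul]
    exact pow_mem ha _
  · rw [add_comm, pow_add, pow_mul]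
    exact pow_mem hb _

theorem pp_mono [hp : Fact p.Prime] {M N : Subgroup G} (hM : PP p M) (hN : N.Normal)
    (h : M ≤ N) : PP p N := by
  rw [pp_iff] at hM ⊢
  obtain ⟨_, hM0, hMx⟩ := hM
  refine ⟨hN, index_ne_of_le h hM0, fun x => ?_⟩
  obtain ⟨a, ha⟩ := hMx x
  exact ⟨a, h ha⟩

/-- Maximal subgroups of a finite `p`-group contain the `p`-th powers and the commutators. -/
theorem coat [hp : Fact p.Prime] {P : Type*} [Group P] [Finite P] (hP : IsPGroup p P)
    (M : Subgroup P) (hM : IsCoatom M) : (∀ x : P, x ^ p ∈ M) ∧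
      ∀ x y : P, x * y * x⁻¹ * y⁻¹ ∈ M := by
  have hnil := hP.isNilpotent
  have hMn : M.Normal := NormalizerCondition.normal_of_coatom M
    (Group.normalizerCondition_of_isNilpotent) hM
  have hsub : ∀ N : Subgroup (P ⧸ M), N = ⊥ ∨ N = ⊤ := by
    intro N
    have h1 : M ≤ N.comap (QuotientGroup.mk' M) := by
      intro x hx
      have : (QuotientGroup.mk' M) x = 1 := (QuotientGroup.eq_one_iff x).2 hx
      rw [mem_comap, this]
      exact one_mem _
    have h3 := map_comap_eq_self_of_surjective (QuotientGroup.mk'_surjective M) N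
    rcases hM.le_iff.1 h1 with h2 | h2
    · right
      rw [← h3, h2, ← MonoidHom.range_eq_map, MonoidHom.range_eq_top]
      exact QuotientGroup.mk'_surjective M
    · left
      rw [← h3, h2]
      exact QuotientGroup.map_mk'_self M
  have hQ : IsPGroup p (P ⧸ M) := hP.to_quotient M
  have hnt : Nontrivial (P ⧸ M) := by
    rw [QuotientGroup.nontrivial_iff]
    exact hM.1
  have hc : center (P ⧸ M) = ⊤ := by
    have h1 := hQ.center_nontrivial
    exact (hsub _).resolve_left fun h0 => (nontrivial_iff_ne_bot _).1 h1 h0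
  have hcomm : ∀ a b : P ⧸ M, a * b = b * a := by
    intro a b
    have : b ∈ center (P ⧸ M) := by
      rw [hc]
      exact mem_top _
    exact (mem_center_iff.1 this a)
  let _ : CommGroup (P ⧸ M) := { (inferInstance : Group (P ⧸ M)) with mul_comm := hcomm }
  have hs : IsSimpleGroup (P ⧸ M) := ⟨fun H _ => hsub H⟩
  have hpr : (Nat.card (P ⧸ M)).Prime := IsSimpleGroup.prime_card
  have hcard : Nat.card (P ⧸ M) = p := by
    obtain ⟨n, hn⟩ := IsPGroup.iff_card.1 hQ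
    rw [hn] at hpr ⊢
    have := (Nat.Prime.eq_one_of_pow (n := n) hpr)
    rw [this, pow_one]
  constructor
  · intro x
    rw [← QuotientGroup.eq_one_iff]
    have : ((x ^ p : P) : P ⧸ M) = ((x : P) : P ⧸ M) ^ p := rfl
    rw [this, ← hcard, pow_card_eq_one']
  · intro x y
    rw [← QuotientGroup.eq_one_iff]
    have : ((x * y * x⁻¹ * y⁻¹ : P) : P ⧸ M) = ((x : P) : P ⧸ M) * y * (x : P ⧸ M)⁻¹ *
      (y : P ⧸ M)⁻¹ := rfl
    rw [this, hcomm (x : P ⧸ M) y]
    group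

theorem sep [hp : Fact p.Prime] (hres : ∀ g : G, g ≠ 1 → ∃ N : Subgroup G, PP p N ∧ g ∉ N)
    (S : Finset G) (hS : (1 : G) ∉ S) : ∃ N : Subgroup G, PP p N ∧ ∀ s ∈ S, s ∉ N := by
  classical
  induction S using Finset.induction_on with
  | empty => exact ⟨⊤, pp_top, by simp⟩
  | insert a S _ ih =>
    obtain ⟨N, hN, hNS⟩ := ih fun h => hS (Finset.mem_insert_of_mem h)
    obtain ⟨M, hM, haM⟩ := hres a (fun h => hS (by rw [h]; exact Finset.mem_insert_self 1 S))
    refine ⟨M ⊓ N, pp_inf hM hN, ?_⟩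
    intro s hs h
    rcases Finset.mem_insert.1 hs with rfl | hs
    · exact haM h.1
    · exact hNS s hs h.2

/-- `p`-th powers and commutators of a subgroup -/
def fs (p : ℕ) (Q : Subgroup G) : Set G :=
  {z | (∃ x ∈ Q, z = x ^ p) ∨ ∃ x ∈ Q, ∃ y ∈ Q, z = x * y * x⁻¹ * y⁻¹}

theorem ncl_le {Q : Subgroup G} (hQ : Q.Normal) {T : Subgroup G} (h : fs p Q ⊆ T) :
    normalClosure (fs p Q) ≤ T := by
  rw [normalClosure, closure_le]
  intro x hx
  obtain ⟨a, ha, hc⟩ := Group.mem_conjugatesOfSet_iff.1 hx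
  obtain ⟨c, hc⟩ := isConj_iff.1 hc
  apply h
  rcases ha with ⟨y, hy, rfl⟩ | ⟨y, hy, z, hz, rfl⟩
  · left
    refine ⟨c * y * c⁻¹, hQ.conj_mem y hy c, ?_⟩
    rw [← hc, conj_pow]
  · right
    refine ⟨c * y * c⁻¹, hQ.conj_mem y hy c, c * z * c⁻¹, hQ.conj_mem z hz c, ?_⟩
    rw [← hc]
    group

theorem closed [hp : Fact p.Prime] (h : PG G)
    (hres : ∀ g : G, g ≠ 1 → ∃ N : Subgroup G, PP p N ∧ g ∉ N) (g : G) (hg : g ∉ RR G) :
    ∃ N : Subgroup G, PP p N ∧ RR G ≤ N ∧ g ∉ N := by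
  classical
  have hRn := h.RR_normal
  set 𝓕 : Set (Subgroup G) := {N | PP p N ∧ RR G ≤ N} with h𝓕
  set Q : Subgroup G := sInf 𝓕 with hQdef
  have hRQ : RR G ≤ Q := le_sInf fun N hN => hN.2
  have hQn : Q.Normal := by
    refine ⟨fun n hn g => ?_⟩
    rw [hQdef, mem_sInf] at hn ⊢
    intro N hN
    exact hN.1.1.conj_mem n (hn N hN) g
  suffices hQ0 : Q.index = 0 by
    have hle : Q ≤ RR G := le_RR hQn hQ0
    have hgQ : g ∉ Q := fun h1 => hg (hle h1)
    rw [hQdef, mem_sInf] at hgQ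
    push Not at hgQ
    obtain ⟨N, hN, hgN⟩ := hgQ
    exact ⟨N, hN.1, hN.2, hgN⟩
  by_contra hQ0
  -- `Q` has `p`-power index
  have hQp : ∀ x : G, x ^ (p ^ Q.index) ∈ Q := by
    intro x
    rw [hQdef, mem_sInf]
    intro N hN
    obtain ⟨n, hn⟩ := hN.1.2
    have h1 : N.index ∣ Q.index := index_dvd_of_le (sInf_le hN)
    have h2 : p ^ n ≤ Q.index := by
      rw [← hn]
      exact Nat.le_of_dvd (Nat.pos_of_ne_zero hQ0) h1
    have h3 : n ≤ Q.index := (Nat.lt_pow_self hp.out.one_lt).le.trans h2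
    rw [← Nat.add_sub_cancel' h3, pow_add, pow_mul, ← hn]
    have := hN.1.1
    exact pow_mem (N.pow_index_mem x) _
  have hQPP : PP p Q := (pp_iff Q).2 ⟨hQn, hQ0, fun x => ⟨_, hQp x⟩⟩
  -- the Frattini type subgroup
  set Φ : Subgroup G := normalClosure (fs p Q) with hΦ
  have hΦs : fs p Q ⊆ Φ := subset_normalClosure
  have hΦQ : Φ ≤ Q := by
    refine ncl_le hQn ?_
    rintro z (⟨x, hx, rfl⟩ | ⟨x, hx, y, hy, rfl⟩)
    · exact pow_mem hx _
    · exact mul_mem (mul_mem (mul_mem hx hy) (inv_mem hx)) (inv_mem hy)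
  have hΦ0 : Φ.index ≠ 0 := by
    rw [← relIndex_mul_index hΦQ]
    refine mul_ne_zero ?_ hQ0
    have hPQ := h.sub hQ0
    have hfg := hPQ.fg
    have hnor : (Φ.subgroupOf Q).Normal := inferInstance
    let _ : CommGroup (Q ⧸ Φ.subgroupOf Q) := { (inferInstance : Group (Q ⧸ Φ.subgroupOf Q)) with
      mul_comm := by
        intro a b
        obtain ⟨x, rfl⟩ := QuotientGroup.mk'_surjective _ a
        obtain ⟨y, rfl⟩ := QuotientGroup.mk'_surjective _ b
        show (QuotientGroup.mk' _) x * (QuotientGroup.mk' _) y =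
          (QuotientGroup.mk' _) y * (QuotientGroup.mk' _) x
        rw [← map_mul, ← map_mul]
        refine QuotientGroup.eq.2 ?_
        rw [mem_subgroupOf]
        apply hΦs
        right
        refine ⟨(y : G)⁻¹, inv_mem y.2, (x : G)⁻¹, inv_mem x.2, ?_⟩
        simp only [mul_inv_rev, coe_mul, coe_inv, inv_inv]
        group }
    have hfin : Finite (Q ⧸ Φ.subgroupOf Q) := CommGroup.finite_of_fg_isMulTorsion _ fun g => by
      obtain ⟨x, rfl⟩ := QuotientGroup.mk'_surjective _ g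
      exact (QuotientGroup.mk' _).isOfFinOrder (hPQ.tor x)
    show (Φ.subgroupOf Q).index ≠ 0
    rw [index_eq_card]
    exact Nat.card_pos.ne'
  have hΦPP : PP p Φ := by
    rw [pp_iff]
    refine ⟨inferInstance, hΦ0, fun x => ⟨Q.index + 1, ?_⟩⟩
    apply hΦs
    left
    exact ⟨_, hQp x, by rw [pow_succ, pow_mul]⟩
  have hQR : Q ≤ RR G ⊔ Φ :=
    sInf_le ⟨pp_mono hΦPP (Subgroup.sup_normal _ _) le_sup_right, le_sup_left⟩
  -- a finite subgroup of `RR G` which generates `Q` modulo `Φ`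
  obtain ⟨S, hS⟩ := h.fgsub hQ0
  have h1 : ∀ s : G, ∃ n : G, s ∈ S → n ∈ RR G ∧ ∃ m ∈ Φ, s = n * m := by
    intro s
    by_cases hs : s ∈ S
    · have h2 : s ∈ ((RR G ⊔ Φ : Subgroup G) : Set G) := by
        apply hQR
        rw [← hS]
        exact subset_closure hs
      rw [mul_normal (RR G) Φ] at h2
      obtain ⟨m, hm, n, hn, hmn⟩ := Set.mem_mul.1 h2
      exact ⟨m, fun _ => ⟨hm, n, hn, hmn.symm⟩⟩
    · exact ⟨1, fun h => absurd h hs⟩
  choose f hf using h1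
  set F : Subgroup G := closure ((S.image f : Finset G) : Set G) with hF
  have hFR : F ≤ RR G := by
    rw [hF, closure_le]
    intro x hx
    rw [Finset.mem_coe, Finset.mem_image] at hx
    obtain ⟨s, hs, rfl⟩ := hx
    exact (hf s hs).1
  have hFf : Finite F := h.loc h.RR_index hFR ⟨_, rfl⟩
  have hQF : Q ≤ F ⊔ Φ := by
    rw [← hS, closure_le]
    intro s hs
    obtain ⟨_, m, hm, e⟩ := hf s hs
    rw [e]
    refine mul_mem (le_sup_left (a := F) ?_) (le_sup_right (a := F) hm)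
    exact subset_closure (Finset.mem_coe.2 (Finset.mem_image_of_mem f hs))
  -- `F` surjects onto all finite `p`-quotients of `Q`
  have hall : ∀ N : Subgroup G, PP p N → Q ≤ F ⊔ N := by
    intro N hN
    have hNn := hN.1
    have hN'n : (N.subgroupOf Q).Normal := inferInstance
    have hN'0 : (N.subgroupOf Q).index ≠ 0 := by
      have h2 : N.relIndex Q ∣ N.index := relIndex_dvd_index_of_normal N Q
      intro h0
      have h3 : N.relIndex Q = 0 := h0
      rw [h3] at h2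
      exact ((pp_iff N).1 hN).2.1 (Nat.eq_zero_of_zero_dvd h2)
    have : (N.subgroupOf Q).FiniteIndex := ⟨hN'0⟩
    have hP : IsPGroup p (Q ⧸ N.subgroupOf Q) := by
      intro g
      obtain ⟨x, rfl⟩ := QuotientGroup.mk'_surjective _ g
      obtain ⟨k, hk⟩ := ((pp_iff N).1 hN).2.2 (x : G)
      refine ⟨k, ?_⟩
      rw [← map_pow]
      refine (QuotientGroup.eq_one_iff _).2 ?_
      rw [mem_subgroupOf, coe_pow]
      exact hk
    have htop : (F.subgroupOf Q).map (QuotientGroup.mk' (N.subgroupOf Q)) = ⊤ := by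
      by_contra hne
      obtain ⟨M, hM, hle⟩ := (IsCoatomic.eq_top_or_exists_le_coatom
        ((F.subgroupOf Q).map (QuotientGroup.mk' (N.subgroupOf Q)))).resolve_left hne
      obtain ⟨c1, c2⟩ := coat hP M hM
      set T : Subgroup G := (M.comap (QuotientGroup.mk' (N.subgroupOf Q))).map Q.subtype with hT
      have hFT : F ≤ T := by
        intro x hx
        have hxQ : x ∈ Q := hRQ (hFR hx)
        refine ⟨⟨x, hxQ⟩, ?_, rfl⟩
        rw [SetLike.mem_coe, mem_comap]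
        exact hle (mem_map_of_mem _ (by rw [mem_subgroupOf]; exact hx))
      have hΦT : Φ ≤ T := by
        refine ncl_le hQn ?_
        rintro z (⟨x, hx, rfl⟩ | ⟨x, hx, y, hy, rfl⟩)
        · refine ⟨⟨x, hx⟩ ^ p, ?_, rfl⟩
          rw [SetLike.mem_coe, mem_comap, map_pow]
          exact c1 _
        · refine ⟨⟨x, hx⟩ * ⟨y, hy⟩ * ⟨x, hx⟩⁻¹ * ⟨y, hy⟩⁻¹, ?_, rfl⟩
          rw [SetLike.mem_coe, mem_comap, map_mul, map_mul, map_mul, map_inv, map_inv]
          exact c2 _ _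
      have hQT : Q ≤ T := hQF.trans (sup_le hFT hΦT)
      apply hM.1
      rw [eq_top_iff]
      intro x _
      obtain ⟨y, rfl⟩ := QuotientGroup.mk'_surjective _ x
      obtain ⟨z, hz, hzy⟩ := hQT y.2
      have : z = y := Subtype.ext hzy
      rw [← this]
      exact hz
    intro x hx
    have h2 : (QuotientGroup.mk' (N.subgroupOf Q)) ⟨x, hx⟩ ∈
        (F.subgroupOf Q).map (QuotientGroup.mk' (N.subgroupOf Q)) := by
      rw [htop]
      exact mem_top _
    obtain ⟨y, hy, hyx⟩ := h2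
    have h3 : y⁻¹ * ⟨x, hx⟩ ∈ N.subgroupOf Q := QuotientGroup.eq.1 hyx
    rw [mem_subgroupOf] at h3
    have h4 : x = (y : G) * ((y : G)⁻¹ * x) := by group
    rw [h4]
    exact mul_mem (le_sup_left (a := F) (mem_subgroupOf.1 hy)) (le_sup_right (a := F) h3)
  -- the contradiction
  have hFfin : (F : Set G).Finite := Set.toFinite _
  obtain ⟨N₀, hN₀, hN₀F⟩ := sep hres (hFfin.toFinset.erase 1) (by simp)
  have hFN : ∀ x ∈ F, x ∈ N₀ → x = 1 := by
    intro x hx hxN
    by_contra hne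
    exact hN₀F x (Finset.mem_erase.2 ⟨hne, hFfin.mem_toFinset.2 hx⟩) hxN
  have hQN0 : (Q ⊓ N₀).index ≠ 0 := index_inf_ne_zero hQ0 ((pp_iff N₀).1 hN₀).2.1
  have hinf := (h.sub hQN0).inf
  obtain ⟨x, hx1⟩ := exists_ne (1 : (Q ⊓ N₀ : Subgroup G))
  have hx1' : (x : G) ≠ 1 := fun h0 => hx1 (Subtype.ext h0)
  obtain ⟨N₁, hN₁, hxN₁⟩ := hres (x : G) hx1'
  have h5 := hall (N₀ ⊓ N₁) (pp_inf hN₀ hN₁) x.2.1
  have hn' : (N₀ ⊓ N₁).Normal := (pp_inf hN₀ hN₁).1
  have h6 : (x : G) ∈ ((F ⊔ (N₀ ⊓ N₁) : Subgroup G) : Set G) := h5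
  rw [mul_normal F (N₀ ⊓ N₁)] at h6
  obtain ⟨a, ha, n, hn, e⟩ := Set.mem_mul.1 h6
  have h7 : a ∈ N₀ := by
    have : a = (x : G) * n⁻¹ := by rw [← e]; group
    rw [this]
    exact mul_mem x.2.2 (inv_mem hn.1)
  rw [hFN a ha h7, one_mul] at e
  apply hxN₁
  rw [← e]
  exact hn.2

end EGrp54
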