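import Pool.Agent.Lib.MP_ee37b4_al.Pro54

/-!
# Property (T), unitarizable groups (helper54)
-/

namespace EGrp54

open Subgroup

/-- A representation of `G` on `H`: an action by linear maps. -/
structure LinRep (G H : Type) [Group G] [NormedAddCommGroup H] [InnerProductSpace ℂ H] where
  /-- the action -/
  act : G → H → H
  one : ∀ v, act 1 v = v
  mul : ∀ g h v, act (g * h) v = act g (act h v)
  add : ∀ g v w, act g (v + w) = act g v + act g w
  smul : ∀ g (c : ℂ) v, act g (c • v) = c • act g v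

/-- `S` and its inverse are bounded; all `S π(g) S⁻¹` are isometric. -/
def Similar {G H : Type} [Group G] [NormedAddCommGroup H] [InnerProductSpace ℂ H]
    (π : LinRep G H) : Prop :=
  ∃ S : H ≃L[ℂ] H, ∀ g v, ‖S (π.act g (S.symm v))‖ = ‖v‖

/-- Each uniformly bounded representation on a complex Hilbert space is similar to a unitary one. -/
def Unitarizable (G : Type) [Group G] : Prop :=
  ∀ (H : Type) [NormedAddCommGroup H] [InnerProductSpace ℂ H] [CompleteSpace H]
    (π : LinRep G H), (∃ C : ℝ, ∀ g v, ‖π.act g v‖ ≤ C * ‖v‖) → Similar π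

/-- Kazhdan's property (T) of a discrete group: there are a finite set `K` and `ε > 0` such that
each unitary representation with a `(K, ε)`-invariant vector has a nonzero invariant vector. -/
def PropertyT (G : Type) [Group G] : Prop :=
  ∃ (K : Finset G) (ε : ℝ), 0 < ε ∧
    ∀ (H : Type) [NormedAddCommGroup H] [InnerProductSpace ℂ H] [CompleteSpace H]
      (π : LinRep G H), (∀ g v, ‖π.act g v‖ = ‖v‖) → ∀ v : H, v ≠ 0 →
      (∀ k ∈ K, ‖π.act k v - v‖ < ε * ‖v‖) → ∃ w : H, w ≠ 0 ∧ ∀ g, π.act g w = w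

/-- pull back -/
def LinRep.comp {G Q H : Type} [Group G] [Group Q] [NormedAddCommGroup H] [InnerProductSpace ℂ H]
    (π : LinRep Q H) (f : G →* Q) : LinRep G H where
  act g := π.act (f g)
  one v := by rw [map_one, π.one]
  mul g h v := by rw [map_mul, π.mul]
  add g := π.add (f g)
  smul g := π.smul (f g)

theorem unitarizable_quot {G : Type} [Group G] (R : Subgroup G) [R.Normal]
    (h : Unitarizable G) : Unitarizable (G ⧸ R) := by
  intro H _ _ _ π ⟨C, hC⟩
  obtain ⟨S, hS⟩ := h H (π.comp (QuotientGroup.mk' R)) ⟨C, fun g v => hC _ v⟩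
  refine ⟨S, fun g v => ?_⟩
  obtain ⟨x, rfl⟩ := QuotientGroup.mk'_surjective R g
  exact hS x v

theorem propertyT_quot {G : Type} [Group G] (R : Subgroup G) [R.Normal]
    (h : PropertyT G) : PropertyT (G ⧸ R) := by
  classical
  obtain ⟨K, ε, hε, hK⟩ := h
  refine ⟨K.image (QuotientGroup.mk' R), ε, hε, ?_⟩
  intro H _ _ _ π hπ v hv hkv
  obtain ⟨w, hw, hinv⟩ := hK H (π.comp (QuotientGroup.mk' R)) (fun g v => hπ _ v) v hv
    fun k hk => hkv _ (Finset.mem_image_of_mem _ hk)
  refine ⟨w, hw, fun g => ?_⟩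
  obtain ⟨x, rfl⟩ := QuotientGroup.mk'_surjective R g
  exact hinv x

/-- the space `ℓ²(ι)` -/
abbrev L2 (ι : Type) : Type := lp (fun _ : ι => ℂ) 2

theorem memp_perm {ι : Type} (e : Equiv.Perm ι) (f : L2 ι) :
    Memℓp (fun i => f (e i)) 2 := by
  have h1 := lp.memℓp f
  rw [memℓp_gen_iff (by norm_num)] at h1 ⊢
  exact (Equiv.summable_iff e).2 h1

/-- the permutation representation -/
noncomputable def permRep (G ι : Type) [Group G] [MulAction G ι] : LinRep G (L2 ι) where
  act g f := ⟨fun i => f (g⁻¹ • i), memp_perm (MulAction.toPerm g⁻¹) f⟩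
  one f := by
    ext i
    show f ((1 : G)⁻¹ • i) = f i
    rw [inv_one, one_smul]
  mul g h f := by
    ext i
    show f ((g * h)⁻¹ • i) = f (h⁻¹ • (g⁻¹ • i))
    rw [mul_inv_rev, mul_smul]
  add g f f' := by
    ext i
    rfl
  smul g c f := by
    ext i
    rfl

theorem permRep_apply {G ι : Type} [Group G] [MulAction G ι] (g : G) (f : L2 ι) (i : ι) :
    (permRep G ι).act g f i = f (g⁻¹ • i) := rfl

theorem permRep_norm {G ι : Type} [Group G] [MulAction G ι] (g : G) (f : L2 ι) :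
    ‖(permRep G ι).act g f‖ = ‖f‖ := by
  rw [lp.norm_eq_tsum_rpow (by norm_num), lp.norm_eq_tsum_rpow (by norm_num)]
  congr 1
  exact Equiv.tsum_eq (MulAction.toPerm g⁻¹) (fun i => ‖f i‖ ^ (2 : ENNReal).toReal)

/-- Groups with property (T) are finitely generated. -/
theorem fg_of_propertyT {G : Type} [Group G] (h : PropertyT G) : Group.FG G := by
  classical
  obtain ⟨K, ε, hε, hK⟩ := h
  set H : Subgroup G := closure (K : Set G) with hH
  set δ : L2 (G ⧸ H) := lp.single 2 ((1 : G) : G ⧸ H) (1 : ℂ) with hδ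
  have hδv : ∀ i : G ⧸ H, δ i = if i = ((1 : G) : G ⧸ H) then 1 else 0 := by
    intro i
    rw [hδ]
    by_cases hi : i = ((1 : G) : G ⧸ H)
    · subst hi
      rw [if_pos rfl]
      exact lp.single_apply_self _ _ _
    · rw [if_neg hi]
      exact lp.single_apply_ne _ _ _ hi
  have hδ0 : δ ≠ 0 := by
    intro h0
    have h1 := hδv ((1 : G) : G ⧸ H)
    rw [h0, if_pos rfl] at h1
    exact zero_ne_one h1
  obtain ⟨w, hw, hinv⟩ := hK (L2 (G ⧸ H)) (permRep G (G ⧸ H)) permRep_norm δ hδ0 (by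
    intro k hk
    have h1 : (permRep G (G ⧸ H)).act k δ = δ := by
      ext i
      rw [permRep_apply, hδv, hδv]
      have hkH : k ∈ H := subset_closure hk
      have h2 : k • ((1 : G) : G ⧸ H) = ((1 : G) : G ⧸ H) := by
        show ((k * 1 : G) : G ⧸ H) = _
        rw [mul_one]
        refine QuotientGroup.eq.2 ?_
        rw [mul_one]
        exact inv_mem hkH
      have h3 : k⁻¹ • i = ((1 : G) : G ⧸ H) ↔ i = ((1 : G) : G ⧸ H) := by
        rw [inv_smul_eq_iff, h2]
      simp only [h3]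
    rw [h1, sub_self, norm_zero]
    exact mul_pos hε (norm_pos_iff.2 hδ0))
  -- the invariant vector is constant
  obtain ⟨i₀, hi₀⟩ : ∃ i, w i ≠ 0 := by
    by_contra hcon
    push Not at hcon
    apply hw
    ext i
    exact hcon i
  have hconst : ∀ i, w i = w i₀ := by
    intro i
    obtain ⟨g, hg⟩ := MulAction.exists_smul_eq G i i₀
    have h1 := congrArg (fun f : L2 (G ⧸ H) => f i) (hinv g⁻¹)
    simp only [permRep_apply, inv_inv] at h1
    rw [← h1, hg]
  have hsum := lp.memℓp w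
  rw [memℓp_gen_iff (by norm_num)] at hsum
  simp only [hconst] at hsum
  have hfin : Finite (G ⧸ H) := by
    by_contra hinf
    rw [not_finite_iff_infinite] at hinf
    have h1 := hsum.tendsto_cofinite_zero
    have h2 : ‖w i₀‖ ^ (2 : ENNReal).toReal = 0 := tendsto_nhds_unique tendsto_const_nhds h1
    have h3 : (0 : ℝ) < ‖w i₀‖ ^ (2 : ENNReal).toReal :=
      Real.rpow_pos_of_pos (norm_pos_iff.2 hi₀) _
    exact h3.ne' h2
  -- generators
  have := Fintype.ofFinite (G ⧸ H)
  rw [Group.fg_def]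
  refine ⟨K ∪ Finset.univ.image (Quotient.out : G ⧸ H → G), ?_⟩
  rw [eq_top_iff]
  intro g _
  have h1 : (Quotient.out (g : G ⧸ H))⁻¹ * g ∈ H := by
    refine QuotientGroup.eq.1 ?_
    exact Quotient.out_eq (g : G ⧸ H)
  have h2 : g = Quotient.out (g : G ⧸ H) * ((Quotient.out (g : G ⧸ H))⁻¹ * g) := by group
  rw [h2]
  refine mul_mem (subset_closure ?_) ?_
  · rw [Finset.coe_union]
    right
    exact Finset.mem_coe.2 (Finset.mem_image_of_mem _ (Finset.mem_univ _))
  · refine closure_mono ?_ h1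
    rw [Finset.coe_union]
    exact Set.subset_union_left

/-- `E`-groups, as in the problem. -/
structure EGroup (p : ℕ) (G : Type) [Group G] : Prop where
  infinite : Infinite G
  periodic : ∀ g : G, IsOfFinOrder g
  residual : ∀ g : G, g ≠ 1 → ∃ N : Subgroup G, N.Normal ∧ (∃ n : ℕ, N.index = p ^ n) ∧ g ∉ N
  fg : ∀ H : Subgroup G, H.FG → H ≠ ⊤ → Finite H ∨ H.FiniteIndex
  kazhdan : PropertyT G

/-- Each nontrivial normal subgroup of a subgroup of finite index has finite index. -/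
def HJI (G : Type) [Group G] : Prop := ∀ K : Subgroup G, K.FiniteIndex → ∀ M : Subgroup G,
  M ≤ K → (∀ k ∈ K, ∀ m ∈ M, k * m * k⁻¹ ∈ M) → M ≠ ⊥ → M.FiniteIndex

theorem EGroup.pg {p : ℕ} {G : Type} [Group G] (h : EGroup p G) : PG G where
  fg := fg_of_propertyT h.kazhdan
  inf := h.infinite
  tor := h.periodic
  lf := by
    intro H hH
    by_cases htop : H = ⊤
    · right
      rw [htop, index_top]
      exact one_ne_zero
    · rcases h.fg H hH htop with h1 | h1
      · exact Or.inl h1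
      · exact Or.inr h1.index_ne_zero

theorem EGroup.quot {p : ℕ} (hp : p.Prime) {G : Type} [Group G] (h : EGroup p G)
    [(RR G).Normal] : EGroup p (G ⧸ RR G) := by
  have : Fact p.Prime := ⟨hp⟩
  have hq := h.pg.quot (RR G) h.pg.RR_index
  refine ⟨hq.inf, hq.tor, ?_, ?_, propertyT_quot _ h.kazhdan⟩
  · intro g hg
    obtain ⟨x, rfl⟩ := QuotientGroup.mk'_surjective (RR G) g
    have hx : x ∉ RR G := fun h0 => hg ((QuotientGroup.eq_one_iff x).2 h0)
    obtain ⟨N, ⟨hN, n, hn⟩, hRN, hxN⟩ := closed h.pg (fun g hg => by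
      obtain ⟨N, h1, h2, h3⟩ := h.residual g hg
      exact ⟨N, ⟨h1, h2⟩, h3⟩) x hx
    refine ⟨N.map (QuotientGroup.mk' (RR G)), hN.map _ (QuotientGroup.mk'_surjective _),
      ⟨n, ?_⟩, ?_⟩
    · rw [index_map_eq _ (QuotientGroup.mk'_surjective _), hn]
      rw [QuotientGroup.ker_mk']
      exact hRN
    · rintro ⟨y, hy, e⟩
      apply hxN
      have h1 : y⁻¹ * x ∈ RR G := QuotientGroup.eq.1 e
      have h2 : x = y * (y⁻¹ * x) := by group
      rw [h2]
      exact mul_mem hy (hRN h1)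
  · intro H hH _
    rcases hq.lf H hH with h1 | h1
    · exact Or.inl h1
    · exact Or.inr ⟨h1⟩

/-- The structure theorem. -/
theorem structure_theorem (p : ℕ) (hp : p.Prime) (G : Type) [Group G] (h : EGroup p G) :
    ∃ (R : Subgroup G) (_ : R.Normal), R.index = 0 ∧
      (∀ N : Subgroup G, N.Normal → N.index = 0 → N ≤ R) ∧
      (∀ H : Subgroup G, H.FG → H ≤ R → Finite H) ∧
      (∀ g : G, g ∉ R → ∃ N : Subgroup G, N.Normal ∧ (∃ n : ℕ, N.index = p ^ n) ∧ R ≤ N ∧
        g ∉ N) ∧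
      EGroup p (G ⧸ R) ∧ HJI (G ⧸ R) ∧ (∀ x : G ⧸ R, x ≠ 1 → (centralizer {x}).index = 0) ∧
      (Unitarizable G → Unitarizable (G ⧸ R)) := by
  have : Fact p.Prime := ⟨hp⟩
  have hn := h.pg.RR_normal
  refine ⟨RR G, hn, h.pg.RR_index, fun N h1 h2 => le_RR h1 h2, fun H h1 h2 =>
    h.pg.loc h.pg.RR_index h2 h1, ?_, h.quot hp, ?_,
    fun x hx => (h.pg.quot (RR G) h.pg.RR_index).icc (fun N h1 h2 => PG.ji N h1 h2) x hx,
    unitarizable_quot _⟩
  · intro g hg
    obtain ⟨N, ⟨hN, hN'⟩, h1, h2⟩ := closed h.pg (fun g hg => by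
      obtain ⟨N, h1, h2, h3⟩ := h.residual g hg
      exact ⟨N, ⟨h1, h2⟩, h3⟩) g hg
    exact ⟨N, hN, hN', h1, h2⟩
  · intro K hK M hMK hc hM
    exact ⟨(h.pg.quot (RR G) h.pg.RR_index).hji (fun N h1 h2 => PG.ji N h1 h2) K
      hK.index_ne_zero M hMK hc hM⟩

end EGrp54
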